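import Pool.Agent.Helper82.PS.Red

/-!
# Plan S, module GOOD: good reduction descends from iterates (M3)
-/

set_option autoImplicit false

open Polynomial Finset Pool.Agent.Helper33 Pool.Agent.Helper33.PS Pool.Agent.Helper55.RD
  Pool.Agent.Helper93.RatODE

namespace Pool.Agent.Helper82.PS

section HH

variable {K : Type*} [Field K] {v : DV K}

/-- the order of the value of the pair `(A, B)` at a primitive vector over `z` -/
noncomputable def HH (v : DV K) (d : ℕ) (A B : K[X]) (z : K) : ℤ :=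
  v.o (B.eval z) - neg v (A.eval z / B.eval z) + d * neg v z

lemma neg_nonneg (x : K) : 0 ≤ neg v x := by
  unfold neg
  split_ifs
  · exact le_rfl
  · exact le_max_left _ _

lemma neg_ge (x : K) (hx : x ≠ 0) : -(v.o x) ≤ neg v x := by
  unfold neg
  rw [if_neg hx]
  exact le_max_right _ _

lemma neg_eq (x : K) : neg v x = 0 ∨ (x ≠ 0 ∧ neg v x = -(v.o x)) := by
  unfold neg
  split_ifs with h
  · exact Or.inl rfl
  · rcases max_choice 0 (-(v.o x)) with h1 | h1
    · exact Or.inl h1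
    · exact Or.inr ⟨h, h1⟩

lemma hom_scale {d : ℕ} {P : K[X]} (hP : P.natDegree ≤ d) (z s : K) :
    hom d P (s⁻¹ * z) (s⁻¹ * 1) = s⁻¹ ^ d * P.eval z := by
  rw [hom_smul_smul, hom_eval hP]

lemma HH_ge {d : ℕ} {A B : K[X]} (hA : A.natDegree ≤ d) (hB : B.natDegree ≤ d) {z s : K}
    (hz : B.eval z ≠ 0) (hs : s ≠ 0) (hos : v.o s = - neg v z) {c : ℝ}
    (h1 : v.ge c (hom d A (s⁻¹ * z) (s⁻¹ * 1))) (h2 : v.ge c (hom d B (s⁻¹ * z) (s⁻¹ * 1))) :
    c ≤ HH v d A B z := by
  rw [hom_scale hA] at h1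
  rw [hom_scale hB] at h2
  have hs' : s⁻¹ ^ d ≠ 0 := pow_ne_zero _ (inv_ne_zero hs)
  have ho : v.o (s⁻¹ ^ d) = d * neg v z := by
    rw [v.o_pow _ (inv_ne_zero hs), v.o_inv s hs, hos, neg_neg]
  have h3 := DV.ge_le h2 (mul_ne_zero hs' hz)
  rw [v.mul _ _ hs' hz, ho] at h3
  unfold HH
  rcases neg_eq (v := v) (A.eval z / B.eval z) with h4 | ⟨h4, h5⟩
  · rw [h4]; push_cast at h3 ⊢; linarith
  · have hAz : A.eval z ≠ 0 := fun h => h4 (by rw [h, zero_div])
    have h6 := DV.ge_le h1 (mul_ne_zero hs' hAz)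
    rw [v.mul _ _ hs' hAz, ho] at h6
    rw [h5, v.o_div _ _ hAz hz]
    push_cast at h6 ⊢; linarith

lemma ge_HH {d : ℕ} {A B : K[X]} (hA : A.natDegree ≤ d) (hB : B.natDegree ≤ d) {z s : K}
    (hz : B.eval z ≠ 0) (hs : s ≠ 0) (hos : v.o s = - neg v z) :
    v.ge (HH v d A B z) (hom d A (s⁻¹ * z) (s⁻¹ * 1)) ∧
      v.ge (HH v d A B z) (hom d B (s⁻¹ * z) (s⁻¹ * 1)) := by
  rw [hom_scale hA, hom_scale hB]
  have hs' : s⁻¹ ^ d ≠ 0 := pow_ne_zero _ (inv_ne_zero hs)
  have ho : v.o (s⁻¹ ^ d) = d * neg v z := by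
    rw [v.o_pow _ (inv_ne_zero hs), v.o_inv s hs, hos, neg_neg]
  constructor
  · by_cases hAz : A.eval z = 0
    · left; rw [hAz, mul_zero]
    right
    rw [v.mul _ _ hs' hAz, ho]
    have h1 := neg_ge (v := v) (A.eval z / B.eval z) (div_ne_zero hAz hz)
    rw [v.o_div _ _ hAz hz] at h1
    have : HH v d A B z ≤ d * neg v z + v.o (A.eval z) := by unfold HH; linarith
    exact_mod_cast this
  · right
    rw [v.mul _ _ hs' hz, ho]
    have h1 := neg_nonneg (v := v) (A.eval z / B.eval z)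
    have : HH v d A B z ≤ d * neg v z + v.o (B.eval z) := by unfold HH; linarith
    exact_mod_cast this

/-- a primitive representative -/
lemma exists_prim (z : K) : ∃ s : K, s ≠ 0 ∧ v.o s = - neg v z ∧
    Prim v (s⁻¹ * z, s⁻¹ * 1) ∧ (v.ge 0 z → s = 1) := by
  by_cases hz : v.ge 0 z
  · refine ⟨1, one_ne_zero, ?_, ?_, fun _ => rfl⟩
    · rcases neg_eq (v := v) z with h | ⟨h, h'⟩
      · rw [h, v.o_one]; rfl
      · have h1 := DV.ge_le hz h
        have h2 : (0 : ℤ) ≤ v.o z := by exact_mod_cast h1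
        have h3 := neg_nonneg (v := v) z
        rw [v.o_one]; omega
    · refine ⟨?_, ?_, Or.inr ⟨?_, ?_⟩⟩
      · simpa using hz
      · simpa using DV.ge_one
      · simp
      · simp [v.o_one]
  · have hz0 : z ≠ 0 := fun h => hz (Or.inl h)
    have hneg : v.o z < 0 := by
      by_contra h
      apply hz
      right
      have : 0 ≤ v.o z := by omega
      exact_mod_cast this
    have hn : neg v z = -(v.o z) := by
      unfold neg
      rw [if_neg hz0]
      exact max_eq_right (by omega)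
    refine ⟨z, hz0, by rw [hn]; ring, ?_, fun h => absurd h hz⟩
    refine ⟨?_, ?_, Or.inl ⟨?_, ?_⟩⟩
    · rw [inv_mul_cancel₀ hz0]; exact DV.ge_one
    · right
      rw [mul_one, v.o_inv z hz0]
      push_cast
      have : (v.o z : ℝ) < 0 := by exact_mod_cast hneg
      linarith
    · change z⁻¹ * z ≠ 0
      rw [inv_mul_cancel₀ hz0]; exact one_ne_zero
    · change v.o (z⁻¹ * z) = 0
      rw [inv_mul_cancel₀ hz0, v.o_one]

lemma HH_nonneg {d : ℕ} {A B : K[X]} (hA : A.natDegree ≤ d) (hB : B.natDegree ≤ d)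
    (hfA : IntP v A) (hfB : IntP v B) {z : K} (hz : B.eval z ≠ 0) : 0 ≤ HH v d A B z := by
  obtain ⟨s, hs, hos, hprim, -⟩ := exists_prim (v := v) z
  have h := HH_ge hA hB hz hs hos (c := 0) (ge_hom_zero hfA hprim.1 hprim.2.1)
    (ge_hom_zero hfB hprim.1 hprim.2.1)
  exact_mod_cast h

lemma HH_le {d : ℕ} (hd : 1 ≤ d) {A B : K[X]} (hA : A.natDegree ≤ d) (hB : B.natDegree ≤ d)
    (hres : resultant A B d d ≠ 0)
    (hfA : IntP v A) (hfB : IntP v B) {z : K} (hz : B.eval z ≠ 0) :
    HH v d A B z ≤ v.o (resultant A B d d) := by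
  obtain ⟨s, hs, hos, hprim, -⟩ := exists_prim (v := v) z
  obtain ⟨h1, h2⟩ := ge_HH hA hB hz hs hos
  have h3 := le_resultant hd hres hfA hfB hprim h1 h2
  exact_mod_cast h3

/-- for a map with good reduction the values at primitive vectors are primitive -/
lemma o_eval_good {d : ℕ} (hd : 1 ≤ d) {A B : K[X]} (hAB : IsRat A B d)
    {c : K} (hc : c ≠ 0) (hA : ∀ i, v.ge (v.o c) (A.coeff i)) (hB : ∀ i, v.ge (v.o c) (B.coeff i))
    (hr : v.o (resultant A B d d) = 2 * d * v.o c) {z : K} (hz : B.eval z ≠ 0) :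
    v.o (B.eval z) = v.o c + neg v (A.eval z / B.eval z) - d * neg v z := by
  have hR : resultant A B d d ≠ 0 := resultant_ne_zero_of_isRat hd hAB
  have hf : IntP v (C c⁻¹ * A) := intP_scale hc hA
  have hg : IntP v (C c⁻¹ * B) := intP_scale hc hB
  have hR' : resultant (C c⁻¹ * A) (C c⁻¹ * B) d d ≠ 0 := by
    rw [resultant_scale]
    exact mul_ne_zero (pow_ne_zero _ (inv_ne_zero hc)) (mul_ne_zero (pow_ne_zero _ (inv_ne_zero hc)) hR)
  have hdg : (C c⁻¹ * B).natDegree ≤ d := (natDegree_C_mul_le _ _).trans hAB.dB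
  have hdf : (C c⁻¹ * A).natDegree ≤ d := (natDegree_C_mul_le _ _).trans hAB.dA
  have hgx : (C c⁻¹ * B).eval z ≠ 0 := by
    rw [eval_mul, eval_C]; exact mul_ne_zero (inv_ne_zero hc) hz
  have h1 := HH_nonneg hdf hdg hf hg hgx
  have h2 := HH_le hd hdf hdg hR' hf hg hgx
  rw [o_resultant_scale hc hR, hr, sub_self] at h2
  have h3 : HH v d (C c⁻¹ * A) (C c⁻¹ * B) z = 0 := le_antisymm h2 h1
  unfold HH at h3
  have h4 : (C c⁻¹ * A).eval z / (C c⁻¹ * B).eval z = A.eval z / B.eval z := by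
    simp only [eval_mul, eval_C]
    exact mul_div_mul_left _ _ (inv_ne_zero hc)
  rw [h4, eval_mul, eval_C, v.mul _ _ (inv_ne_zero hc) hz, v.o_inv c hc] at h3
  linarith

end HH

section tele

/-- the telescoping sum -/
def TT (d : ℕ) (h : ℕ → ℤ) (m : ℕ) : ℤ := ∑ t ∈ range m, (d : ℤ) ^ (m - 1 - t) * h t

lemma TT_succ (d : ℕ) (h : ℕ → ℤ) (m : ℕ) : TT d h (m + 1) = d * TT d h m + h m := by
  unfold TT
  rw [sum_range_succ, mul_sum]
  congr 1
  · refine sum_congr rfl fun t ht => ?_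
    rw [mem_range] at ht
    have : m + 1 - 1 - t = (m - 1 - t) + 1 := by omega
    rw [this, pow_succ]
    ring
  · simp

lemma TT_succ' (d : ℕ) (h : ℕ → ℤ) (m : ℕ) :
    TT d h (m + 1) = (d : ℤ) ^ m * h 0 + TT d (fun t => h (t + 1)) m := by
  unfold TT
  rw [sum_range_succ', add_comm]
  congr 1
  refine sum_congr rfl fun t ht => ?_
  have : m + 1 - 1 - (t + 1) = m - 1 - t := by omega
  rw [this]

lemma TT_nonneg (d : ℕ) (h : ℕ → ℤ) (m : ℕ) (hh : ∀ t < m, 0 ≤ h t) : 0 ≤ TT d h m := by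
  unfold TT
  refine sum_nonneg fun t ht => ?_
  rw [mem_range] at ht
  exact mul_nonneg (pow_nonneg (by positivity) _) (hh t ht)

lemma le_TT (d : ℕ) (h : ℕ → ℤ) (m : ℕ) (hm : 1 ≤ m) (hh : ∀ t < m, 0 ≤ h t) :
    (d : ℤ) ^ (m - 1) * h 0 ≤ TT d h m := by
  obtain ⟨m, rfl⟩ := Nat.exists_eq_add_of_le' hm
  rw [TT_succ', Nat.add_sub_cancel]
  have := TT_nonneg d (fun t => h (t + 1)) m fun t ht => hh (t + 1) (by omega)
  linarith

variable {K : Type*} [Field K] {v : DV K} {d : ℕ} {A B : K[X]}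

lemma iter_eval_succ (hA : A.natDegree ≤ d) (hB : B.natDegree ≤ d) (m : ℕ) {x : K}
    (hx : (iter A B d m).2.eval x ≠ 0) :
    (iter A B d (m + 1)).1.eval x =
        (iter A B d m).2.eval x ^ d * A.eval ((iter A B d m).1.eval x / (iter A B d m).2.eval x) ∧
      (iter A B d (m + 1)).2.eval x =
        (iter A B d m).2.eval x ^ d * B.eval ((iter A B d m).1.eval x / (iter A B d m).2.eval x) := by
  constructor
  · change (hev A d (iter A B d m).1 (iter A B d m).2).eval x = _
    rw [hev_eval, hev_eq_eval A d hA _ _ hx]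
  · change (hev B d (iter A B d m).1 (iter A B d m).2).eval x = _
    rw [hev_eval, hev_eq_eval B d hB _ _ hx]

lemma orb_iter (hA : A.natDegree ≤ d) (hB : B.natDegree ≤ d) {z : ℕ → K} {n : ℕ} (hz : Orb A B z n)
    (m : ℕ) (hm : m ≤ n) :
    (iter A B d m).2.eval (z 0) ≠ 0 ∧
      (iter A B d m).1.eval (z 0) / (iter A B d m).2.eval (z 0) = z m := by
  have h := iter_orbit (P := A) (Q := B) hA hB z 0 m (fun j hj => by
    rw [zero_add]
    exact ⟨hz.ne j (by omega), hz.step j (by omega)⟩)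
  rwa [zero_add] at h

/-- orders of the iterates -/
lemma o_iter (hA : A.natDegree ≤ d) (hB : B.natDegree ≤ d) {z : ℕ → K} {n : ℕ} (hz : Orb A B z n)
    (m : ℕ) (hm : m ≤ n) :
    v.o ((iter A B d m).2.eval (z 0)) =
      TT d (fun t => HH v d A B (z t)) m + neg v (z m) - (d : ℤ) ^ m * neg v (z 0) := by
  induction m with
  | zero =>
    simp [iter, TT, v.o_one]
  | succ m ih =>
    obtain ⟨h1, h2⟩ := orb_iter hA hB hz m (by omega)
    have h3 := ih (by omega)
    have h4 := (iter_eval_succ hA hB m h1).2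
    rw [h2] at h4
    have hne := hz.ne m (by omega)
    rw [h4, v.mul _ _ (pow_ne_zero _ h1) hne, v.o_pow _ h1, h3, TT_succ]
    have h5 := hz.step m (by omega)
    unfold HH
    rw [← h5]
    ring

/-- the orbit of a generic point -/
lemma exists_orb (hA : A.natDegree ≤ d) (hB : B.natDegree ≤ d) {x : K} {n : ℕ}
    (hx : ∀ m ≤ n, (iter A B d m).2.eval x ≠ 0) : ∃ z : ℕ → K, z 0 = x ∧ Orb A B z n := by
  refine ⟨fun m => (iter A B d m).1.eval x / (iter A B d m).2.eval x, by simp [iter], ?_, ?_⟩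
  · intro j hj h0
    have h1 := (iter_eval_succ hA hB j (hx j (by omega))).2
    rw [h0, mul_zero] at h1
    exact hx (j + 1) (by omega) h1
  · intro j hj
    obtain ⟨h1, h2⟩ := iter_eval_succ hA hB j (hx j (by omega))
    rw [h1, h2, mul_div_mul_left _ _ (pow_ne_zero _ (hx j (by omega)))]

lemma iter_ne_zero (hd : 1 ≤ d) (h : IsRat A B d) (m : ℕ) : (iter A B d m).2 ≠ 0 := by
  intro h0
  have h1 := iter_isCoprime h.cop h.dA h.dB h.top m
  have h2 := iter_coeff h.cop h.dA h.dB h.top m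
  rw [h0, isCoprime_zero_right] at h1
  rw [h0, coeff_zero] at h2
  have h3 : (iter A B d m).1.coeff (d ^ m) ≠ 0 := by
    rcases h2 with h2 | h2
    · exact h2
    · exact absurd rfl h2
  have h4 := natDegree_eq_zero_of_isUnit h1
  have h5 := le_natDegree_of_ne_zero h3
  have h6 : 1 ≤ d ^ m := Nat.one_le_pow _ _ hd
  omega

/-- the product of the denominators of the first iterates -/
noncomputable def GG (A B : K[X]) (d n : ℕ) : K[X] := ∏ m ∈ range (n + 1), (iter A B d m).2

lemma GG_ne_zero (hd : 1 ≤ d) (h : IsRat A B d) (n : ℕ) : GG A B d n ≠ 0 :=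
  prod_ne_zero_iff.mpr fun m _ => iter_ne_zero hd h m

lemma exists_orb' (h : IsRat A B d) {x : K} {n : ℕ} (hx : (GG A B d n).eval x ≠ 0) :
    ∃ z : ℕ → K, z 0 = x ∧ Orb A B z n := by
  apply exists_orb h.dA h.dB
  intro m hm h0
  apply hx
  rw [GG, eval_prod]
  exact prod_eq_zero (mem_range.mpr (Nat.lt_succ_of_le hm)) h0

end tele

section main

variable {k K : Type*} [Field k] [Field K] [Algebra k K] {v : DV K}

omit [Algebra k K] in
lemma exists_avoid [Infinite k] {G : K[X]} (hG : G ≠ 0) {G₀ : k[X]} (hG₀ : G₀ ≠ 0) (φ : k → K)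
    (hφ : Function.Injective φ) : ∃ s : k, G.eval (φ s) ≠ 0 ∧ G₀.eval s ≠ 0 := by
  classical
  have h1 : {x : K | G.eval x = 0}.Finite := by
    refine (G.roots.toFinset.finite_toSet).subset fun x hx => ?_
    simp only [mem_coe, Multiset.mem_toFinset, mem_roots hG, IsRoot.def]
    exact hx
  have h2 : {s : k | G₀.eval s = 0}.Finite := by
    refine (G₀.roots.toFinset.finite_toSet).subset fun x hx => ?_
    simp only [mem_coe, Multiset.mem_toFinset, mem_roots hG₀, IsRoot.def]
    exact hx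
  have h3 : (φ ⁻¹' {x : K | G.eval x = 0}).Finite := h1.preimage hφ.injOn
  obtain ⟨s, hs⟩ := (h3.union h2).exists_notMem
  rw [Set.mem_union, not_or] at hs
  exact ⟨s, hs.1, hs.2⟩

lemma neg_const (hv : ResK k v) (c : k) : neg v (algebraMap k K c) = 0 := by
  unfold neg
  split_ifs with h
  · rfl
  · rw [hv.const c (fun h0 => h (by rw [h0, map_zero]))]; simp

/-- the core: normalised pair -/
theorem core [IsAlgClosed k] (hv : ResK k v) {d J : ℕ} (hd : 2 ≤ d) (hJ : 1 ≤ J) {A B U W : K[X]}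
    (hAB : IsRat A B d) (hUW : IsRat U W (d ^ J))
    (hit : ∀ z : ℕ → K, Orb A B z J → W.eval (z 0) ≠ 0 ∧ U.eval (z 0) / W.eval (z 0) = z J)
    (h : IsGood v (d ^ J) U W) (hA : IntP v A) (hB : IntP v B)
    (hprim : (∃ i, ¬ v.ge 1 (A.coeff i)) ∨ ∃ i, ¬ v.ge 1 (B.coeff i)) :
    v.o (resultant A B d d) = 0 := by
  have hd1 : 1 ≤ d := by omega
  have hdJ : 1 ≤ d ^ J := Nat.one_le_pow _ _ hd1
  have : Infinite k := IsAlgClosed.instInfinite
  have : Infinite K := Infinite.of_injective _ (algebraMap k K).injective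
  have hR : resultant A B d d ≠ 0 := resultant_ne_zero_of_isRat hd1 hAB
  -- step 1: the iterate is a multiple of `(U, W)`
  have hcross : U * (iter A B d J).2 = (iter A B d J).1 * W := by
    by_contra hne
    have hne' : U * (iter A B d J).2 - (iter A B d J).1 * W ≠ 0 := sub_ne_zero.mpr hne
    obtain ⟨s, hs⟩ := exists_avoid (k := k) (K := K)
      (mul_ne_zero hne' (GG_ne_zero hd1 hAB J)) (G₀ := 1) one_ne_zero (algebraMap k K)
      (algebraMap k K).injective
    rw [eval_mul] at hs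
    obtain ⟨z, hz0, hz⟩ := exists_orb' hAB (right_ne_zero_of_mul hs.1)
    obtain ⟨h1, h2⟩ := hit z hz
    obtain ⟨h3, h4⟩ := orb_iter hAB.dA hAB.dB hz J le_rfl
    apply left_ne_zero_of_mul hs.1
    rw [← hz0, eval_sub, eval_mul, eval_mul, sub_eq_zero]
    rw [← h4, div_eq_div_iff h1 h3] at h2
    rw [h2]
  obtain ⟨γ, hγ, hγW⟩ : ∃ γ : K, γ ≠ 0 ∧ (iter A B d J).2 = C γ * W := by
    have hcop := iter_isCoprime hAB.cop hAB.dA hAB.dB hAB.top J
    have h1 : W ∣ (iter A B d J).2 := by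
      refine hUW.cop.symm.dvd_of_dvd_mul_left ?_
      exact ⟨(iter A B d J).1, by rw [hcross]; ring⟩
    have h2 : (iter A B d J).2 ∣ W := by
      refine hcop.symm.dvd_of_dvd_mul_left ?_
      exact ⟨U, by rw [← hcross]; ring⟩
    obtain ⟨u, hu⟩ := associated_of_dvd_dvd h1 h2
    obtain ⟨γ, hγ, hγu⟩ := Polynomial.isUnit_iff.mp u.isUnit
    exact ⟨γ, hγ.ne_zero, by rw [← hu, ← hγu]; ring⟩
  obtain ⟨c', hc', hU, hW, hr'⟩ := h
  -- step 2: the telescoping sum is constant
  have hT : ∀ z : ℕ → K, Orb A B z J →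
      TT d (fun t => HH v d A B (z t)) J = v.o γ + v.o c' := by
    intro z hz
    obtain ⟨h1, h2⟩ := hit z hz
    have h3 := o_iter (v := v) hAB.dA hAB.dB hz J le_rfl
    have h4 := o_eval_good (v := v) hdJ hUW hc' hU hW (by rw [hr']) h1
    rw [hγW, eval_mul, eval_C, v.mul _ _ hγ h1, h4, h2] at h3
    push_cast at h3
    linarith
  have hnn : ∀ (z : ℕ → K) (n : ℕ), Orb A B z n → ∀ t < n, 0 ≤ HH v d A B (z t) := by
    intro z n hz t ht
    exact HH_nonneg hAB.dA hAB.dB hA hB (hz.ne t ht)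
  obtain ⟨A₀, B₀, hdA, hdB, hcA, hcB, hres, hev⟩ := exists_red hv hA hB d
  -- step 3: a generic point
  have hgen : ∃ P : k[X], P ≠ 0 ∧ ∀ c : k, P.eval c ≠ 0 → B.eval (algebraMap k K c) ≠ 0 →
      HH v d A B (algebraMap k K c) ≤ 0 := by
    have hone : ∀ (y : K) (a : k), a ≠ 0 → v.ge 1 (y - algebraMap k K a) → y ≠ 0 ∧ v.o y = 0 := by
      intro y a ha hy
      have h1 : algebraMap k K a ≠ 0 := by rw [Ne, map_eq_zero]; exact ha
      have h2 := DV.ord_add_of_ge h1 hy (by rw [hv.const a ha]; norm_num)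
      rw [add_sub_cancel, hv.const a ha] at h2
      exact h2
    rcases hprim with ⟨i, hi⟩ | ⟨i, hi⟩
    · refine ⟨A₀, ?_, ?_⟩
      · intro h0
        apply hi
        have := hcA i
        rwa [h0, coeff_zero, map_zero, sub_zero] at this
      · intro c hc hBc
        obtain ⟨h1, -⟩ := hev (algebraMap k K c) c (ge_const hv c) (Or.inl (sub_self _))
        obtain ⟨h2, h3⟩ := hone _ _ hc h1
        unfold HH
        have h4 := neg_ge (v := v) (A.eval (algebraMap k K c) / B.eval (algebraMap k K c))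
          (div_ne_zero h2 hBc)
        rw [v.o_div _ _ h2 hBc, h3] at h4
        rw [neg_const hv]
        linarith
    · refine ⟨B₀, ?_, ?_⟩
      · intro h0
        apply hi
        have := hcB i
        rwa [h0, coeff_zero, map_zero, sub_zero] at this
      · intro c hc hBc
        obtain ⟨-, h1⟩ := hev (algebraMap k K c) c (ge_const hv c) (Or.inl (sub_self _))
        obtain ⟨h2, h3⟩ := hone _ _ hc h1
        unfold HH
        have h4 := neg_nonneg (v := v) (A.eval (algebraMap k K c) / B.eval (algebraMap k K c))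
        rw [neg_const hv, h3]
        linarith
  -- step 4: the constant is zero
  have hκ : v.o γ + v.o c' ≤ 0 := by
    obtain ⟨P, hP, hP'⟩ := hgen
    obtain ⟨s, hs1, hs2⟩ := exists_avoid (k := k) (K := K) (GG_ne_zero hd1 hAB (J + 1)) hP
      (algebraMap k K) (algebraMap k K).injective
    obtain ⟨z, hz0, hz⟩ := exists_orb' hAB hs1
    have hz1 : Orb A B z J := ⟨fun j hj => hz.ne j (by omega), fun j hj => hz.step j (by omega)⟩
    have hz2 : Orb A B (fun j => z (j + 1)) J :=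
      ⟨fun j hj => hz.ne (j + 1) (by omega), fun j hj => hz.step (j + 1) (by omega)⟩
    have h1 := hT z hz1
    have h2 := hT _ hz2
    have h3 := TT_succ d (fun t => HH v d A B (z t)) J
    rw [TT_succ', h1] at h3
    have h4 : HH v d A B (z 0) = 0 := by
      apply le_antisymm
      · rw [hz0]
        apply hP' s hs2
        rw [← hz0]
        exact hz.ne 0 (by omega)
      · exact hnn z (J + 1) hz 0 (by omega)
    have h5 := hnn z (J + 1) hz J (by omega)
    rw [h4, h2] at h3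
    have h6 : ((d : ℤ) - 1) * (v.o γ + v.o c') ≤ 0 := by linarith
    have h7 : (0 : ℤ) < (d : ℤ) - 1 := by
      have : (2 : ℤ) ≤ d := by exact_mod_cast hd
      linarith
    by_contra hcon
    have : 0 < ((d : ℤ) - 1) * (v.o γ + v.o c') := mul_pos h7 (by omega)
    omega
  have hzero : ∀ z : ℕ → K, Orb A B z J → HH v d A B (z 0) ≤ 0 := by
    intro z hz
    have h1 := le_TT d (fun t => HH v d A B (z t)) J hJ fun t ht => hnn z J hz t ht
    rw [hT z hz] at h1
    have h2 : (0 : ℤ) < (d : ℤ) ^ (J - 1) := pow_pos (by exact_mod_cast hd1) _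
    by_contra hcon
    have : 0 < (d : ℤ) ^ (J - 1) * HH v d A B (z 0) := mul_pos h2 (by omega)
    have h3 : (d : ℤ) ^ (J - 1) * HH v d A B (z 0) ≤ v.o γ + v.o c' := h1
    omega
  -- step 5: conclusion
  have hR0 : 0 ≤ v.o (resultant A B d d) := by
    have h1 := ge_resultant (m := d) (n := d) (a := 0) (b := 0) hA hB
    have h2 := DV.ge_le h1 hR
    rw [mul_zero, add_zero] at h2
    exact_mod_cast h2
  by_contra hRne
  have hR1 : 1 ≤ v.o (resultant A B d d) := by omega
  set τ := resultant A B d d with hτ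
  have hτ1 : v.ge 1 τ := by right; exact_mod_cast hR1
  have hres0 : resultant A₀ B₀ d d = 0 := by
    refine res_unique hv (x := τ) hres ?_
    rwa [map_zero, sub_zero]
  by_cases hcop : IsCoprime A₀ B₀
  · -- common zero at infinity
    have htop : A₀.coeff d = 0 ∧ B₀.coeff d = 0 := by
      by_contra hcon
      apply resultant_ne_zero_of_isCoprime hcop (hdA.trans hAB.dA) (hdB.trans hAB.dB) ?_ hd1 hres0
      rw [not_and_or] at hcon
      rcases hcon with h1 | h1
      · exact Or.inl (le_antisymm (hdA.trans hAB.dA) (le_natDegree_of_ne_zero h1))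
      · exact Or.inr (le_antisymm (hdB.trans hAB.dB) (le_natDegree_of_ne_zero h1))
    have hAd : v.ge 1 (A.coeff d) := by
      have := hcA d; rwa [htop.1, map_zero, sub_zero] at this
    have hBd : v.ge 1 (B.coeff d) := by
      have := hcB d; rwa [htop.2, map_zero, sub_zero] at this
    have hφ : Function.Injective fun s : k => (τ * algebraMap k K s)⁻¹ := by
      intro a b hab
      have h1 := inv_injective hab
      exact (algebraMap k K).injective (mul_left_cancel₀ hR h1)
    obtain ⟨s, hs1, hs2⟩ := exists_avoid (k := k) (K := K) (GG_ne_zero hd1 hAB J) (G₀ := X) X_ne_zero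
      _ hφ
    rw [eval_X] at hs2
    obtain ⟨z, hz0, hz⟩ := exists_orb' hAB hs1
    have hs3 : algebraMap k K s ≠ 0 := by rw [Ne, map_eq_zero]; exact hs2
    set t := τ * algebraMap k K s with ht
    have ht0 : t ≠ 0 := mul_ne_zero hR hs3
    have hot : v.o t = v.o τ := by rw [ht, v.mul _ _ hR hs3, hv.const s hs2, add_zero]
    have hz0' : z 0 = t⁻¹ := hz0
    have hneg : neg v (z 0) = v.o τ := by
      rw [hz0']
      unfold neg
      rw [if_neg (inv_ne_zero ht0), v.o_inv t ht0, neg_neg, hot]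
      exact max_eq_right (by omega)
    have hB0 := hz.ne 0 (by omega)
    have hhom : ∀ P : K[X], IntP v P → v.ge 1 (P.coeff d) →
        v.ge 1 (hom d P ((t⁻¹)⁻¹ * t⁻¹) ((t⁻¹)⁻¹ * 1)) := by
      intro P hP hPd
      rw [inv_inv, mul_inv_cancel₀ ht0, mul_one]
      refine DV.ge_sum _ _ fun kl hkl => ?_
      rw [HasAntidiagonal.mem_antidiagonal] at hkl
      rw [one_pow, mul_one]
      have ht1 : v.ge 1 t := by right; rw [hot]; exact_mod_cast hR1
      rcases Nat.eq_zero_or_pos kl.2 with h0 | h0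
      · have h1 : kl.1 = d := by omega
        rw [h0, pow_zero, mul_one, h1]
        exact hPd
      · have h1 := DV.ge_mul (hP kl.1) (DV.ge_pow ht1 kl.2)
        refine DV.ge_mono h1 ?_
        have : (1 : ℝ) ≤ kl.2 := by exact_mod_cast h0
        linarith
    have h1 := HH_ge (v := v) (s := t⁻¹) (c := 1) hAB.dA hAB.dB hB0 (inv_ne_zero ht0)
      (by rw [hneg, v.o_inv t ht0, hot]) (by rw [hz0']; exact hhom A hA hAd)
      (by rw [hz0']; exact hhom B hB hBd)
    have h2 := hzero z hz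
    have h3 : (1 : ℤ) ≤ HH v d A B (z 0) := by exact_mod_cast h1
    omega
  · -- a common finite zero
    rw [Polynomial.isCoprime_iff_aeval_ne_zero_of_isAlgClosed k k] at hcop
    push Not at hcop
    obtain ⟨α, hα1, hα2⟩ := hcop
    rw [coe_aeval_eq_eval] at hα1 hα2
    have hφ : Function.Injective fun s : k => algebraMap k K α + τ * algebraMap k K s := by
      intro a b hab
      have h1 := add_left_cancel hab
      exact (algebraMap k K).injective (mul_left_cancel₀ hR h1)
    obtain ⟨s, hs1, -⟩ := exists_avoid (k := k) (K := K) (GG_ne_zero hd1 hAB J) (G₀ := 1) one_ne_zero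
      _ hφ
    obtain ⟨z, hz0, hz⟩ := exists_orb' hAB hs1
    have hzα : v.ge 1 (z 0 - algebraMap k K α) := by
      rw [hz0, add_sub_cancel_left]
      have := DV.ge_mul hτ1 (ge_const hv s)
      rwa [add_zero] at this
    have hzint : v.ge 0 (z 0) := by
      have h1 := DV.ge_add (DV.ge_mono hzα (by norm_num : (0 : ℝ) ≤ 1)) (ge_const hv α)
      rwa [sub_add_cancel] at h1
    obtain ⟨h1, h2⟩ := hev (z 0) α hzint hzα
    rw [hα1, map_zero, sub_zero] at h1
    rw [hα2, map_zero, sub_zero] at h2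
    obtain ⟨s', hs', hos', -, hs''⟩ := exists_prim (v := v) (z 0)
    have hs1 : s' = 1 := hs'' hzint
    have h3 := HH_ge (v := v) (s := s') (c := 1) hAB.dA hAB.dB (hz.ne 0 (by omega)) hs' hos'
      (by rw [hom_scale hAB.dA, hs1]; simpa using h1) (by rw [hom_scale hAB.dB, hs1]; simpa using h2)
    have h4 := hzero z hz
    have h5 : (1 : ℤ) ≤ HH v d A B (z 0) := by exact_mod_cast h3
    omega

/-- M3 ITERGOOD -/
theorem isGood_of_iterate {k K : Type*} [Field k] [IsAlgClosed k] [Field K] [Algebra k K] (v : DV K)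
    (hv : ResK k v) {d J : ℕ} (hd : 2 ≤ d) (hJ : 1 ≤ J) {A B U W : K[X]} (hAB : IsRat A B d)
    (hUW : IsRat U W (d ^ J))
    (hit : ∀ z : ℕ → K, Orb A B z J → W.eval (z 0) ≠ 0 ∧ U.eval (z 0) / W.eval (z 0) = z J)
    (h : IsGood v (d ^ J) U W) : IsGood v d A B := by
  classical
  have hd1 : 1 ≤ d := by omega
  -- a coefficient of minimal order
  let S : Finset K := ((A.support.image A.coeff) ∪ (B.support.image B.coeff))
  have hSne : S.Nonempty := by
    rcases hAB.top with h1 | h1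
    · exact ⟨A.coeff d, mem_union_left _ (mem_image_of_mem _ (mem_support_iff.mpr h1))⟩
    · exact ⟨B.coeff d, mem_union_right _ (mem_image_of_mem _ (mem_support_iff.mpr h1))⟩
  obtain ⟨c, hcS, hcmin⟩ := S.exists_min_image (fun x => v.o x) hSne
  have hc : c ≠ 0 := by
    rcases mem_union.mp hcS with h1 | h1
    · obtain ⟨i, hi, rfl⟩ := mem_image.mp h1
      exact mem_support_iff.mp hi
    · obtain ⟨i, hi, rfl⟩ := mem_image.mp h1
      exact mem_support_iff.mp hi
  have hA : ∀ i, v.ge (v.o c) (A.coeff i) := by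
    intro i
    by_cases hi : A.coeff i = 0
    · exact Or.inl hi
    · right
      exact_mod_cast hcmin _ (mem_union_left _ (mem_image_of_mem _ (mem_support_iff.mpr hi)))
  have hB : ∀ i, v.ge (v.o c) (B.coeff i) := by
    intro i
    by_cases hi : B.coeff i = 0
    · exact Or.inl hi
    · right
      exact_mod_cast hcmin _ (mem_union_right _ (mem_image_of_mem _ (mem_support_iff.mpr hi)))
  have hR : resultant A B d d ≠ 0 := resultant_ne_zero_of_isRat hd1 hAB
  refine ⟨c, hc, hA, hB, ?_⟩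
  have hcu : IsUnit (C c⁻¹ : K[X]) := isUnit_C.mpr (isUnit_iff_ne_zero.mpr (inv_ne_zero hc))
  have hAB' : IsRat (C c⁻¹ * A) (C c⁻¹ * B) d := by
    refine ⟨?_, (natDegree_C_mul_le _ _).trans hAB.dA, (natDegree_C_mul_le _ _).trans hAB.dB, ?_⟩
    · rw [isCoprime_mul_unit_left_left hcu, isCoprime_mul_unit_left_right hcu]
      exact hAB.cop
    · rw [coeff_C_mul, coeff_C_mul]
      rcases hAB.top with h1 | h1
      · exact Or.inl (mul_ne_zero (inv_ne_zero hc) h1)
      · exact Or.inr (mul_ne_zero (inv_ne_zero hc) h1)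
  have horb : ∀ z : ℕ → K, Orb (C c⁻¹ * A) (C c⁻¹ * B) z J → Orb A B z J := by
    intro z hz
    constructor
    · intro j hj h0
      apply hz.ne j hj
      rw [eval_mul, h0, mul_zero]
    · intro j hj
      rw [hz.step j hj]
      simp only [eval_mul, eval_C]
      exact mul_div_mul_left _ _ (inv_ne_zero hc)
  have hcc : ¬ v.ge 1 (c⁻¹ * c) := by
    rw [inv_mul_cancel₀ hc]
    intro h1
    have := DV.ge_le h1 one_ne_zero
    rw [v.o_one] at this
    norm_num at this
  have hprim : (∃ i, ¬ v.ge 1 ((C c⁻¹ * A).coeff i)) ∨ ∃ i, ¬ v.ge 1 ((C c⁻¹ * B).coeff i) := by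
    rcases mem_union.mp hcS with h1 | h1
    · obtain ⟨i, hi, hic⟩ := mem_image.mp h1
      exact Or.inl ⟨i, by rw [coeff_C_mul, hic]; exact hcc⟩
    · obtain ⟨i, hi, hic⟩ := mem_image.mp h1
      exact Or.inr ⟨i, by rw [coeff_C_mul, hic]; exact hcc⟩
  have h1 := core hv hd hJ hAB' hUW (fun z hz => hit z (horb z hz)) h (intP_scale hc hA)
    (intP_scale hc hB) hprim
  rw [o_resultant_scale hc hR] at h1
  omega

end main

end Pool.Agent.Helper82.PS
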