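import Pool.Agent.Helper82.PS.Good

/-!
# Plan S, module GOOD: the window lemma (M4)
-/

set_option autoImplicit false

open Polynomial Finset Pool.Agent.Helper33 Pool.Agent.Helper33.PS Pool.Agent.Helper55.RD

namespace Pool.Agent.Helper82.PS

variable {K : Type*} [Field K]

/-- congruences propagate forward along the orbit -/
lemma orb_congr (v : DV K) {d : ℕ} {A B : K[X]} (hAB : IsRat A B d)
    (hg : IsGood v d A B) {z : ℕ → K} {n : ℕ} (hz : Orb A B z n) (hint : ∀ j ≤ n, v.ge 0 (z j))
    {a b : ℕ} (h : v.ge 1 (z a - z b)) (s : ℕ) (ha : a + s ≤ n) (hb : b + s ≤ n) :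
    v.ge 1 (z (a + s) - z (b + s)) := by
  induction s with
  | zero => simpa using h
  | succ s ih =>
    have h1 := ih (by omega) (by omega)
    have ea : z (a + (s + 1)) = A.eval (z (a + s)) / B.eval (z (a + s)) := hz.step (a + s) (by omega)
    have eb : z (b + (s + 1)) = A.eval (z (b + s)) / B.eval (z (b + s)) := hz.step (b + s) (by omega)
    have h2 := congr_of_good v hAB hg (x := z (a + s)) (y := z (b + s)) (hint _ (by omega))
      (hint _ (by omega)) (hz.ne _ (by omega)) (hz.ne _ (by omega))
      (by rw [← ea]; exact hint _ (by omega)) (by rw [← eb]; exact hint _ (by omega)) 1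
      (by simpa using h1)
    rw [ea, eb]
    simpa using h2

/-- M4 WINDOW -/
theorem window_distinct {K : Type*} [Field K] (v : DV K) {d : ℕ} (_hd : 1 ≤ d) {A B : K[X]} (hAB : IsRat A B d)
    (hg : IsGood v d A B) {z : ℕ → K} {n J N' nw : ℕ} (hJ : 1 ≤ J) (hn : N' * J ≤ n)
    (hz : Orb A B z n) (hint : ∀ j ≤ n, v.ge 0 (z j))
    (hblock : ∀ l ≤ N', ∀ l' ≤ N', l ≠ l' → z (l * J) ≠ z (l' * J) ∧ v.o (z (l * J) - z (l' * J)) = 0)
    (hw : 2 * nw + 2 ≤ N') :
    ∀ a ≤ nw, ∀ b ≤ nw, a ≠ b → z a ≠ z b ∧ v.o (z a - z b) = 0 := by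
  have hnw : nw ≤ n := by nlinarith
  -- a coincidence gives a contradiction
  have key : ∀ a b : ℕ, a < b → b ≤ nw → ¬ v.ge 1 (z a - z b) := by
    intro a b hab hb hcon
    obtain ⟨p, rfl⟩ := Nat.exists_eq_add_of_lt hab
    set p' := p + 1 with hp'
    have hper : ∀ q s : ℕ, a + s + p' * q ≤ n → v.ge 1 (z (a + s) - z (a + s + p' * q)) := by
      intro q
      induction q with
      | zero => intro s _; simp [DV.ge_zero]
      | succ q ih =>
        intro s hs
        have e1 : a + s + p' * (q + 1) = a + p' + (s + p' * q) := by ring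
        have e2 : a + s + p' * q = a + (s + p' * q) := by ring
        rw [e1] at hs
        have h1 := ih s (by omega)
        have h2 := orb_congr v hAB hg hz hint hcon (s + p' * q) (by omega) (by
          have : a + p + 1 = a + p' := by omega
          rw [this]; exact hs)
        have h3 := DV.ge_add h1 h2
        rw [e1]
        rw [e2] at h3
        have e3 : a + p + 1 + (s + p' * q) = a + p' + (s + p' * q) := by omega
        rw [e3] at h3
        simpa using h3
    have hJ' : a ≤ nw * J := by nlinarith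
    have e1 : a + (nw * J - a) = nw * J := by omega
    have e2 : nw * J + p' * J = (nw + p') * J := by ring
    have hle : nw + p' ≤ N' := by omega
    have hle2 : (nw + p') * J ≤ n := (Nat.mul_le_mul_right J hle).trans hn
    have h1 := hper J (nw * J - a) (by rw [e1, e2]; exact hle2)
    rw [e1, e2] at h1
    obtain ⟨h2, h3⟩ := hblock nw (by omega) (nw + p') hle (by omega)
    have h4 := DV.ge_le h1 (sub_ne_zero.mpr h2)
    rw [h3] at h4
    norm_num at h4
  have key2 : ∀ a b : ℕ, a < b → b ≤ nw → z a ≠ z b ∧ v.o (z a - z b) = 0 := by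
    intro a b hab hb
    have h1 := key a b hab hb
    have hne : z a ≠ z b := by
      intro h
      apply h1
      left
      rw [h, sub_self]
    refine ⟨hne, ?_⟩
    have h2 : v.ge 0 (z a - z b) := DV.ge_sub (hint a (by omega)) (hint b (by omega))
    have h3 := DV.ge_le h2 (sub_ne_zero.mpr hne)
    by_contra h4
    apply h1
    right
    have h5 : (0 : ℤ) ≤ v.o (z a - z b) := by exact_mod_cast h3
    have h6 : (1 : ℤ) ≤ v.o (z a - z b) := by omega
    exact_mod_cast h6
  intro a ha b hb hab
  rcases lt_or_gt_of_ne hab with h | h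
  · exact key2 a b h hb
  · obtain ⟨h1, h2⟩ := key2 b a h ha
    exact ⟨h1.symm, by rw [DV.o_sub_comm]; exact h2⟩

end Pool.Agent.Helper82.PS
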