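import Pool.Agent.Helper33.PS.Ext
import Pool.Agent.Helper55.RD.Content
import Pool.Agent.Helper55.RD.RatLB

/-!
# Plan S, module GOOD: basics of good reduction (G1, G2)
-/

set_option autoImplicit false

open Polynomial Finset Pool.Agent.Helper33 Pool.Agent.Helper33.PS Pool.Agent.Helper55.RD

namespace Pool.Agent.Helper82.PS

variable {K : Type*} [Field K] {v : DV K}

lemma intP_scale {A : K[X]} {c : K} (hc : c ≠ 0) (hA : ∀ i, v.ge (v.o c) (A.coeff i)) :
    IntP v (C c⁻¹ * A) := by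
  intro i
  rw [coeff_C_mul]
  have h1 : v.ge (-(v.o c : ℝ)) c⁻¹ := DV.ge_inv hc le_rfl
  have h2 := DV.ge_mul h1 (hA i)
  rwa [neg_add_cancel] at h2

lemma resultant_scale {A B : K[X]} {d : ℕ} {c : K} :
    resultant (C c⁻¹ * A) (C c⁻¹ * B) d d = (c⁻¹) ^ d * ((c⁻¹) ^ d * resultant A B d d) := by
  rw [resultant_C_mul_left, resultant_C_mul_right]

lemma o_resultant_scale {A B : K[X]} {d : ℕ} {c : K} (hc : c ≠ 0) (hR : resultant A B d d ≠ 0) :
    v.o (resultant (C c⁻¹ * A) (C c⁻¹ * B) d d) = v.o (resultant A B d d) - 2 * d * v.o c := by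
  have h1 : (c⁻¹) ^ d ≠ 0 := pow_ne_zero _ (inv_ne_zero hc)
  rw [resultant_scale, v.mul _ _ h1 (mul_ne_zero h1 hR), v.mul _ _ h1 hR,
    v.o_pow _ (inv_ne_zero hc), v.o_inv c hc]
  ring

lemma ge_eval {P : K[X]} (hP : IntP v P) {x : K} (hx : v.ge 0 x) : v.ge 0 (P.eval x) := by
  have h := ge_hom_zero (n := P.natDegree) hP hx (b := 1) DV.ge_one
  rwa [hom_eval le_rfl] at h

/-- G1 -/
theorem o_eval_of_good {K : Type*} [Field K] (v : DV K) {d : ℕ} (hd : 1 ≤ d) {A B : K[X]}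
    (hAB : IsRat A B d)
    {c : K} (hc : c ≠ 0) (hA : ∀ i, v.ge (v.o c) (A.coeff i)) (hB : ∀ i, v.ge (v.o c) (B.coeff i))
    (hr : v.o (resultant A B d d) = 2 * d * v.o c) {x : K} (hx : v.ge 0 x) (hBx : B.eval x ≠ 0)
    (hfx : v.ge 0 (A.eval x / B.eval x)) : v.o (B.eval x) = v.o c := by
  have hR : resultant A B d d ≠ 0 := resultant_ne_zero_of_isRat hd hAB
  have hf : IntP v (C c⁻¹ * A) := intP_scale hc hA
  have hg : IntP v (C c⁻¹ * B) := intP_scale hc hB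
  have hR' : resultant (C c⁻¹ * A) (C c⁻¹ * B) d d ≠ 0 := by
    rw [resultant_scale]
    exact mul_ne_zero (pow_ne_zero _ (inv_ne_zero hc)) (mul_ne_zero (pow_ne_zero _ (inv_ne_zero hc)) hR)
  have hdg : (C c⁻¹ * B).natDegree ≤ d := (natDegree_C_mul_le _ _).trans hAB.dB
  have hdf : (C c⁻¹ * A).natDegree ≤ d := (natDegree_C_mul_le _ _).trans hAB.dA
  have hgx : (C c⁻¹ * B).eval x ≠ 0 := by
    rw [eval_mul, eval_C]; exact mul_ne_zero (inv_ne_zero hc) hBx
  have h1 : v.ge (v.o ((C c⁻¹ * B).eval x)) (hom d (C c⁻¹ * A) x 1) := by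
    rw [hom_eval hdf]
    have h2 : (C c⁻¹ * A).eval x = (C c⁻¹ * B).eval x * (A.eval x / B.eval x) := by
      simp only [eval_mul, eval_C]
      field_simp
    rw [h2]
    have h3 := DV.ge_mul (DV.ge_self (v := v) ((C c⁻¹ * B).eval x)) hfx
    rwa [add_zero] at h3
  have h2 : v.ge (v.o ((C c⁻¹ * B).eval x)) (hom d (C c⁻¹ * B) x 1) := by
    rw [hom_eval hdg]; exact DV.ge_self _
  have hprim : Prim v (x, 1) := ⟨hx, DV.ge_one, Or.inr ⟨one_ne_zero, v.o_one⟩⟩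
  have h3 := le_resultant hd hR' hf hg hprim h1 h2
  rw [o_resultant_scale hc hR, hr, sub_self] at h3
  have h4 : (0 : ℝ) ≤ v.o ((C c⁻¹ * B).eval x) := DV.ge_le (ge_eval hg hx) hgx
  have h5 : v.o ((C c⁻¹ * B).eval x) = - v.o c + v.o (B.eval x) := by
    rw [eval_mul, eval_C, v.mul _ _ (inv_ne_zero hc) hBx, v.o_inv c hc]
  rw [h5] at h3 h4
  push_cast at h3 h4
  have h6 : (v.o (B.eval x) : ℝ) = v.o c := by linarith
  exact_mod_cast h6

/-- the difference quotient of the pair -/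
lemma ge_cross {P Q : K[X]} (hP : IntP v P) (hQ : IntP v Q) {x y : K} (hx : v.ge 0 x)
    (hy : v.ge 0 y) {c : ℝ} (hxy : v.ge c (x - y)) :
    v.ge c (P.eval x * Q.eval y - P.eval y * Q.eval x) := by
  have key : ∀ P : K[X], IntP v P → v.ge c (P.eval x - P.eval y) := by
    intro P hP
    have h1 : P.eval x - P.eval y = ∑ i ∈ range (P.natDegree + 1),
        P.coeff i * ((∑ j ∈ range i, x ^ j * y ^ (i - 1 - j)) * (x - y)) := by
      rw [eval_eq_sum_range, eval_eq_sum_range, ← sum_sub_distrib]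
      refine sum_congr rfl fun i _ => ?_
      rw [(Commute.all x y).geom_sum₂_mul]
      ring
    rw [h1]
    refine DV.ge_sum _ _ fun i _ => ?_
    have h2 : v.ge 0 (∑ j ∈ range i, x ^ j * y ^ (i - 1 - j)) := by
      refine DV.ge_sum _ _ fun j _ => ?_
      have := DV.ge_mul (DV.ge_pow hx j) (DV.ge_pow hy (i - 1 - j))
      simpa using this
    have h3 := DV.ge_mul (hP i) (DV.ge_mul h2 hxy)
    rwa [zero_add, zero_add] at h3
  have h1 : P.eval x * Q.eval y - P.eval y * Q.eval x =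
      (P.eval x - P.eval y) * Q.eval y - P.eval y * (Q.eval x - Q.eval y) := by ring
  rw [h1]
  have h2 := DV.ge_mul (key P hP) (ge_eval hQ hy)
  have h3 := DV.ge_mul (ge_eval hP hy) (key Q hQ)
  rw [add_zero] at h2
  rw [zero_add] at h3
  exact DV.ge_sub h2 h3

/-- G2 -/
theorem congr_of_good {K : Type*} [Field K] (v : DV K) {d : ℕ} {A B : K[X]} (hAB : IsRat A B d)
    (hg : IsGood v d A B) {x y : K} (hx : v.ge 0 x) (hy : v.ge 0 y) (hBx : B.eval x ≠ 0)
    (hBy : B.eval y ≠ 0) (hfx : v.ge 0 (A.eval x / B.eval x)) (hfy : v.ge 0 (A.eval y / B.eval y))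
    (ν : ℕ) (hxy : v.ge ν (x - y)) : v.ge ν (A.eval x / B.eval x - A.eval y / B.eval y) := by
  rcases Nat.eq_zero_or_pos d with hd | hd
  · subst hd
    have h1 := eq_C_of_natDegree_le_zero hAB.dA
    have h2 := eq_C_of_natDegree_le_zero hAB.dB
    rw [h1, h2]
    left
    simp
  obtain ⟨c, hc, hA, hB, hr⟩ := hg
  have h1 := o_eval_of_good v hd hAB hc hA hB hr hx hBx hfx
  have h2 := o_eval_of_good v hd hAB hc hA hB hr hy hBy hfy
  have hf : IntP v (C c⁻¹ * A) := intP_scale hc hA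
  have hg : IntP v (C c⁻¹ * B) := intP_scale hc hB
  have h3 := ge_cross hf hg hx hy hxy
  have hgx : (C c⁻¹ * B).eval x ≠ 0 := by
    rw [eval_mul, eval_C]; exact mul_ne_zero (inv_ne_zero hc) hBx
  have hgy : (C c⁻¹ * B).eval y ≠ 0 := by
    rw [eval_mul, eval_C]; exact mul_ne_zero (inv_ne_zero hc) hBy
  have hox : v.o ((C c⁻¹ * B).eval x) = 0 := by
    rw [eval_mul, eval_C, v.mul _ _ (inv_ne_zero hc) hBx, v.o_inv c hc, h1]; ring
  have hoy : v.o ((C c⁻¹ * B).eval y) = 0 := by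
    rw [eval_mul, eval_C, v.mul _ _ (inv_ne_zero hc) hBy, v.o_inv c hc, h2]; ring
  have h4 : A.eval x / B.eval x - A.eval y / B.eval y =
      ((C c⁻¹ * A).eval x * (C c⁻¹ * B).eval y - (C c⁻¹ * A).eval y * (C c⁻¹ * B).eval x) *
        (((C c⁻¹ * B).eval x)⁻¹ * ((C c⁻¹ * B).eval y)⁻¹) := by
    simp only [eval_mul, eval_C]
    field_simp
  rw [h4]
  have h5 : v.ge (-0 : ℝ) ((C c⁻¹ * B).eval x)⁻¹ := DV.ge_inv hgx (by rw [hox]; simp)
  have h6 : v.ge (-0 : ℝ) ((C c⁻¹ * B).eval y)⁻¹ := DV.ge_inv hgy (by rw [hoy]; simp)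
  have h7 := DV.ge_mul h3 (DV.ge_mul h5 h6)
  simpa using h7

end Pool.Agent.Helper82.PS
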