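import Pool.Agent.Helper82.PS.Good

/-!
# Plan S, module GOOD: reduction of polynomials modulo a place with residue field `k`
-/

set_option autoImplicit false

open Polynomial Finset Pool.Agent.Helper33 Pool.Agent.Helper33.PS Pool.Agent.Helper55.RD

namespace Pool.Agent.Helper82.PS

/-- the valuation ring -/
def vring {K : Type*} [Field K] (v : DV K) : Subring K where
  carrier := {x | v.ge 0 x}
  mul_mem' := by
    intro a b ha hb
    have := DV.ge_mul ha hb
    simpa using this
  one_mem' := DV.ge_one
  add_mem' := fun ha hb => DV.ge_add ha hb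
  zero_mem' := DV.ge_zero 0
  neg_mem' := fun ha => DV.ge_neg ha

variable {k K : Type*} [Field k] [Field K] [Algebra k K] {v : DV K}

lemma ge_const (hv : ResK k v) (c : k) : v.ge 0 (algebraMap k K c) := by
  by_cases hc : c = 0
  · left; rw [hc, map_zero]
  · right; rw [hv.const c hc]; simp

lemma res_unique (hv : ResK k v) {x : K} {c c' : k} (h : v.ge 1 (x - algebraMap k K c))
    (h' : v.ge 1 (x - algebraMap k K c')) : c = c' := by
  by_contra hne
  have h1 : c' - c ≠ 0 := sub_ne_zero.mpr (Ne.symm hne)
  have h2 := DV.ge_sub h h'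
  have h3 : x - algebraMap k K c - (x - algebraMap k K c') = algebraMap k K (c' - c) := by
    rw [map_sub]; ring
  rw [h3] at h2
  have h4 := DV.ge_le h2 (by rw [Ne, map_eq_zero]; exact h1)
  rw [hv.const _ h1] at h4
  norm_num at h4

/-- the reduction homomorphism -/
noncomputable def red (hv : ResK k v) : vring v →+* k where
  toFun x := (hv.res x x.2).choose
  map_one' := by
    refine res_unique hv (hv.res _ (1 : vring v).2).choose_spec ?_
    left; simp
  map_mul' x y := by
    refine res_unique hv (hv.res _ (x * y).2).choose_spec ?_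
    have hx := (hv.res _ x.2).choose_spec
    have hy := (hv.res _ y.2).choose_spec
    set a := (hv.res _ x.2).choose
    set b := (hv.res _ y.2).choose
    have h1 : ((x * y : vring v) : K) - algebraMap k K (a * b) =
        (x : K) * ((y : K) - algebraMap k K b) + algebraMap k K b * ((x : K) - algebraMap k K a) := by
      rw [map_mul]; push_cast; ring
    rw [h1]
    have h2 := DV.ge_mul x.2 hy
    have h3 := DV.ge_mul (ge_const hv b) hx
    rw [zero_add] at h2 h3
    exact DV.ge_add h2 h3
  map_zero' := by
    refine res_unique hv (hv.res _ (0 : vring v).2).choose_spec ?_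
    left; simp
  map_add' x y := by
    refine res_unique hv (hv.res _ (x + y).2).choose_spec ?_
    have hx := (hv.res _ x.2).choose_spec
    have hy := (hv.res _ y.2).choose_spec
    set a := (hv.res _ x.2).choose
    set b := (hv.res _ y.2).choose
    have h1 : ((x + y : vring v) : K) - algebraMap k K (a + b) =
        ((x : K) - algebraMap k K a) + ((y : K) - algebraMap k K b) := by
      rw [map_add]; push_cast; ring
    rw [h1]
    exact DV.ge_add hx hy

lemma red_spec (hv : ResK k v) (x : vring v) : v.ge 1 ((x : K) - algebraMap k K (red hv x)) :=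
  (hv.res x x.2).choose_spec

lemma red_eq_zero (hv : ResK k v) (x : vring v) : red hv x = 0 ↔ v.ge 1 (x : K) := by
  constructor
  · intro h
    have := red_spec hv x
    rwa [h, map_zero, sub_zero] at this
  · intro h
    refine res_unique hv (red_spec hv x) ?_
    rwa [map_zero, sub_zero]

lemma red_algebraMap (hv : ResK k v) (c : k) (x : vring v) (h : (x : K) = algebraMap k K c) :
    red hv x = c := by
  refine res_unique hv (red_spec hv x) ?_
  rw [h, sub_self]; exact DV.ge_zero 1

/-- lift of an integral polynomial to the valuation ring -/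
lemma exists_lift {P : K[X]} (hP : IntP v P) :
    ∃ P' : (vring v)[X], P'.map (vring v).subtype = P ∧ P'.natDegree = P.natDegree := by
  have h : (↑P.coeffs : Set K) ⊆ vring v := by
    intro x hx
    rw [mem_coe, mem_coeffs_iff] at hx
    obtain ⟨n, _, rfl⟩ := hx
    exact hP n
  exact ⟨P.toSubring (vring v) h, map_toSubring _ _ _, natDegree_toSubring _ _ _⟩

/-- reduction of a pair of polynomials, with resultants and values -/
theorem exists_red (hv : ResK k v) {A B : K[X]} (hA : IntP v A) (hB : IntP v B) (d : ℕ) :
    ∃ A₀ B₀ : k[X], A₀.natDegree ≤ A.natDegree ∧ B₀.natDegree ≤ B.natDegree ∧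
      (∀ i, v.ge 1 (A.coeff i - algebraMap k K (A₀.coeff i))) ∧
      (∀ i, v.ge 1 (B.coeff i - algebraMap k K (B₀.coeff i))) ∧
      v.ge 1 (resultant A B d d - algebraMap k K (resultant A₀ B₀ d d)) ∧
      (∀ x : K, ∀ c : k, v.ge 0 x → v.ge 1 (x - algebraMap k K c) →
        v.ge 1 (A.eval x - algebraMap k K (A₀.eval c)) ∧
        v.ge 1 (B.eval x - algebraMap k K (B₀.eval c))) := by
  obtain ⟨A', hA', hdA⟩ := exists_lift hA
  obtain ⟨B', hB', hdB⟩ := exists_lift hB
  have hcoef : ∀ (P : K[X]) (P' : (vring v)[X]), P'.map (vring v).subtype = P → ∀ i,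
      v.ge 1 (P.coeff i - algebraMap k K ((P'.map (red hv)).coeff i)) := by
    intro P P' h i
    rw [← h, coeff_map, coeff_map]
    exact red_spec hv _
  have heval : ∀ (P : K[X]) (P' : (vring v)[X]), P'.map (vring v).subtype = P →
      ∀ x : K, ∀ c : k, v.ge 0 x → v.ge 1 (x - algebraMap k K c) →
      v.ge 1 (P.eval x - algebraMap k K ((P'.map (red hv)).eval c)) := by
    intro P P' h x c hx hc
    have h1 : P.eval x = (P'.eval ⟨x, hx⟩ : vring v) := by
      rw [← h, eval_map]
      exact eval₂_at_apply (vring v).subtype (⟨x, hx⟩ : vring v)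
    have h2 : red hv ⟨x, hx⟩ = c := res_unique hv (red_spec hv _) hc
    rw [h1, ← h2, eval_map, eval₂_at_apply]
    exact red_spec hv _
  refine ⟨A'.map (red hv), B'.map (red hv), natDegree_map_le.trans hdA.le,
    natDegree_map_le.trans hdB.le, hcoef A A' hA', hcoef B B' hB', ?_, fun x c hx hc =>
      ⟨heval A A' hA' x c hx hc, heval B B' hB' x c hx hc⟩⟩
  have h1 := resultant_map_map A' B' d d (vring v).subtype
  rw [hA', hB'] at h1
  have h2 := resultant_map_map A' B' d d (red hv)
  rw [h1, h2]
  exact red_spec hv _

end Pool.Agent.Helper82.PS
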